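import Pool.Agent.H317.GR.StmC

/-!
# Project GR: generalised eigenspaces in triangular nilpotent groups
-/

set_option autoImplicit false

namespace Pool.Agent.H323.GR

open Pool.Agent.H317.GR Module
open scoped commutatorElement

section

variable {K V G : Type} [Field K] [AddCommGroup V] [Module K V] [Group G]

theorem gen_inv_left (ρ : G →* Module.End K V) (y : G) (v : V) : ρ y⁻¹ (ρ y v) = v := by
  have h : ρ y⁻¹ * ρ y = 1 := by rw [← map_mul, inv_mul_cancel, map_one]
  exact LinearMap.congr_fun h v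

theorem gen_inj (ρ : G →* Module.End K V) (y : G) : Function.Injective (ρ y) :=
  Function.LeftInverse.injective (gen_inv_left ρ y)

theorem gen_conj (ρ : G →* Module.End K V) (y z : G) (l : K) {v : V}
    (hv : v ∈ (ρ z).maxGenEigenspace l) : ρ y v ∈ (ρ (y * z * y⁻¹)).maxGenEigenspace l := by
  rw [Module.End.mem_maxGenEigenspace] at hv ⊢
  obtain ⟨n, hn⟩ := hv
  refine ⟨n, ?_⟩
  have h1 : SemiconjBy (ρ y) (ρ z - l • 1) (ρ (y * z * y⁻¹) - l • 1) := by
    unfold SemiconjBy
    rw [mul_sub, sub_mul, ← map_mul, ← map_mul, inv_mul_cancel_right, mul_smul_comm,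
      smul_mul_assoc, mul_one, one_mul]
  have h2 := (h1.pow_right n).eq
  have h3 := LinearMap.congr_fun h2 v
  rw [Module.End.mul_apply, Module.End.mul_apply, hn, map_zero] at h3
  exact h3.symm

theorem gen_dim [FiniteDimensional K V] (ρ : G →* Module.End K V) (y z : G) (l : K) :
    finrank K ((ρ (y * z * y⁻¹)).maxGenEigenspace l) ≤ finrank K ((ρ z).maxGenEigenspace l) := by
  have hm : ∀ v ∈ (ρ (y * z * y⁻¹)).maxGenEigenspace l,
      ρ y⁻¹ v ∈ (ρ z).maxGenEigenspace l := by
    intro v hv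
    have h1 := gen_conj ρ y⁻¹ (y * z * y⁻¹) l hv
    have e : y⁻¹ * (y * z * y⁻¹) * y⁻¹⁻¹ = z := by group
    rwa [e] at h1
  refine LinearMap.finrank_le_finrank_of_injective (f := (ρ y⁻¹).restrict hm) ?_
  intro a b hab
  apply Subtype.ext
  apply gen_inj ρ y⁻¹
  exact congrArg Subtype.val hab

/-- the operators preserve the flag -/
theorem gen_pres {ρ : G →* Module.End K V} {F : ℕ → Submodule K V}
    (hm : Monotone F) (h0 : F 0 = ⊥)
    (hs : ∀ g : G, ∀ i, ∃ c : K, ∀ v ∈ F (i + 1), ρ g v - c • v ∈ F i) (g : G) (i : ℕ) {v : V}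
    (hv : v ∈ F i) : ρ g v ∈ F i := by
  cases i with
  | zero =>
    rw [h0, Submodule.mem_bot] at hv
    rw [hv, map_zero]
    exact Submodule.zero_mem _
  | succ j =>
    obtain ⟨c, hc⟩ := hs g j
    have h1 := hm (Nat.le_succ j) (hc v hv)
    have h2 := (F (j + 1)).smul_mem c hv
    have h3 := (F (j + 1)).add_mem h1 h2
    rwa [sub_add_cancel] at h3

theorem gen_uniq {F : ℕ → Submodule K V} {i : ℕ} {u : V}
    (hu : u ∉ F i) {c c' : K} {x : V} (h1 : x - c • u ∈ F i) (h2 : x - c' • u ∈ F i) :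
    c = c' := by
  by_contra hne
  apply hu
  have h3 := (F i).sub_mem h2 h1
  have e : x - c' • u - (x - c • u) = (c - c') • u := by rw [sub_smul]; abel
  rw [e] at h3
  have h4 := (F i).smul_mem (c - c')⁻¹ h3
  rwa [smul_smul, inv_mul_cancel₀ (sub_ne_zero.2 hne), one_smul] at h4

theorem gen_mul {ρ : G →* Module.End K V} {F : ℕ → Submodule K V}
    (hm : Monotone F) (h0 : F 0 = ⊥)
    (hs : ∀ g : G, ∀ i, ∃ c : K, ∀ v ∈ F (i + 1), ρ g v - c • v ∈ F i)
    {a : ℕ → G → K} (ha : ∀ i g, ∀ v ∈ F (i + 1), ρ g v - a i g • v ∈ F i) {i : ℕ} {u : V}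
    (hu : u ∈ F (i + 1)) (hu' : u ∉ F i) (g h : G) : a i (g * h) = a i g * a i h := by
  refine gen_uniq hu' (ha i (g * h) u hu) ?_
  have h1 := gen_pres hm h0 hs g i (ha i h u hu)
  have h2 := (F i).smul_mem (a i h) (ha i g u hu)
  have h3 := (F i).add_mem h1 h2
  have e : ρ g (ρ h u - a i h • u) + a i h • (ρ g u - a i g • u) =
      ρ (g * h) u - (a i g * a i h) • u := by
    rw [map_sub, map_smul, smul_sub, smul_smul, map_mul, Module.End.mul_apply, mul_comm (a i h)]
    abel
  rwa [e] at h3

theorem gen_one {ρ : G →* Module.End K V} {F : ℕ → Submodule K V}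
    {a : ℕ → G → K} (ha : ∀ i g, ∀ v ∈ F (i + 1), ρ g v - a i g • v ∈ F i) {i : ℕ} {u : V}
    (hu : u ∈ F (i + 1)) (hu' : u ∉ F i) : a i 1 = 1 := by
  refine gen_uniq hu' (ha i 1 u hu) ?_
  rw [map_one, Module.End.one_apply, one_smul, sub_self]
  exact Submodule.zero_mem _

/-- the diagonal entry on a vector of the generalised eigenspace -/
theorem gen_diag {ρ : G →* Module.End K V} {F : ℕ → Submodule K V}
    (hm : Monotone F) (h0 : F 0 = ⊥)
    (hs : ∀ g : G, ∀ i, ∃ c : K, ∀ v ∈ F (i + 1), ρ g v - c • v ∈ F i)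
    {a : ℕ → G → K} (ha : ∀ i g, ∀ v ∈ F (i + 1), ρ g v - a i g • v ∈ F i) {i : ℕ} {u : V}
    (hu : u ∈ F (i + 1)) (hu' : u ∉ F i) {z : G} {l : K}
    (hl : u ∈ (ρ z).maxGenEigenspace l) : a i z = l := by
  rw [Module.End.mem_maxGenEigenspace] at hl
  obtain ⟨n, hn⟩ := hl
  have key : ∀ m : ℕ, ((ρ z - l • 1) ^ m) u - (a i z - l) ^ m • u ∈ F i := by
    intro m
    induction m with
    | zero =>
      rw [pow_zero, pow_zero, Module.End.one_apply, one_smul, sub_self]
      exact Submodule.zero_mem _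
    | succ m ih =>
      have h1 : (ρ z - l • 1) (((ρ z - l • 1) ^ m) u - (a i z - l) ^ m • u) ∈ F i := by
        rw [LinearMap.sub_apply, LinearMap.smul_apply, Module.End.one_apply]
        exact (F i).sub_mem (gen_pres hm h0 hs z i ih) ((F i).smul_mem l ih)
      have h2 := (F i).smul_mem ((a i z - l) ^ m) (ha i z u hu)
      have h3 := (F i).add_mem h1 h2
      have e : (ρ z - l • 1) (((ρ z - l • 1) ^ m) u - (a i z - l) ^ m • u) +
          (a i z - l) ^ m • (ρ z u - a i z • u) =
          ((ρ z - l • 1) ^ (m + 1)) u - (a i z - l) ^ (m + 1) • u := by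
        rw [pow_succ' (ρ z - l • 1), Module.End.mul_apply, map_sub, map_smul,
          LinearMap.sub_apply (ρ z) _ u, LinearMap.smul_apply l _ u, Module.End.one_apply,
          pow_succ, mul_smul, sub_smul, smul_sub, smul_sub]
        simp only [smul_sub]
        abel
      rwa [e] at h3
  have h1 := key n
  rw [hn, zero_sub, Submodule.neg_mem_iff] at h1
  by_contra hne
  apply hu'
  have h4 := (F i).smul_mem ((a i z - l) ^ n)⁻¹ h1
  rwa [smul_smul, inv_mul_cancel₀ (pow_ne_zero n (sub_ne_zero.2 hne)), one_smul] at h4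

end

theorem gen : S_GEN := by
  intro K V G _ _ _ _ _ _ ρ F hT
  obtain ⟨hm, hd, htop, hs'⟩ := hT
  have hs : ∀ g : G, ∀ i, ∃ c : K, ∀ v ∈ F (i + 1), ρ g v - c • v ∈ F i :=
    fun g => hs' g (Set.mem_univ g)
  have h0 : F 0 = ⊥ := Submodule.finrank_eq_zero.1 (hd 0 (Nat.zero_le _))
  have hex : ∀ (i : ℕ) (g : G), ∃ c : K, ∀ v ∈ F (i + 1), ρ g v - c • v ∈ F i :=
    fun i g => hs g i
  choose a ha using hex
  have main : ∀ j : ℕ, ∀ y ∈ Subgroup.upperCentralSeries G j, ∀ (z : G) (l : K),
      ∀ v ∈ (ρ z).maxGenEigenspace l, ρ y v ∈ (ρ z).maxGenEigenspace l := by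
    intro j
    induction j with
    | zero =>
      intro y hy z l v hv
      rw [Subgroup.upperCentralSeries_zero, Subgroup.mem_bot] at hy
      rw [hy, map_one, Module.End.one_apply]
      exact hv
    | succ j ih =>
      intro y hy z l v hv
      have hc := Subgroup.mem_upperCentralSeries_succ_iff.1 hy z
      have hW : ∀ w ∈ (ρ z).maxGenEigenspace l,
          ρ (y * z * y⁻¹) w ∈ (ρ z).maxGenEigenspace l := by
        intro w hw
        have e : y * z * y⁻¹ = ⁅y, z⁆ * z := by rw [commutatorElement_def]; group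
        rw [e, map_mul, Module.End.mul_apply]
        apply ih _ hc z l
        exact Module.End.mapsTo_maxGenEigenspace_of_comm (Commute.refl (ρ z)) l hw
      have hle1 : ∀ i : ℕ, i ≤ finrank K V → ∀ w ∈ F i, w ∈ (ρ z).maxGenEigenspace l →
          w ∈ (ρ (y * z * y⁻¹)).maxGenEigenspace l := by
        intro i
        induction i with
        | zero =>
          intro _ w hw _
          rw [h0, Submodule.mem_bot] at hw
          rw [hw]
          exact Submodule.zero_mem _
        | succ i ih2 =>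
          intro hi w hw hwl
          by_cases hwi : w ∈ F i
          · exact ih2 (by omega) w hwi hwl
          · have h1 := gen_diag hm h0 hs ha hw hwi hwl
            have h2 : a i (y * z * y⁻¹) = l := by
              rw [gen_mul hm h0 hs ha hw hwi, gen_mul hm h0 hs ha hw hwi, h1, mul_right_comm,
                ← gen_mul hm h0 hs ha hw hwi, mul_inv_cancel, gen_one ha hw hwi, one_mul]
            have h3 := ha i (y * z * y⁻¹) w hw
            rw [h2] at h3
            have h4 := Submodule.sub_mem _ (hW w hwl) (Submodule.smul_mem _ l hwl)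
            have h5 := ih2 (by omega) _ h3 h4
            rw [Module.End.mem_maxGenEigenspace] at h5 ⊢
            obtain ⟨n, hn⟩ := h5
            refine ⟨n + 1, ?_⟩
            rw [pow_succ, Module.End.mul_apply, LinearMap.sub_apply, LinearMap.smul_apply,
              Module.End.one_apply]
            exact hn
      have hle : (ρ z).maxGenEigenspace l ≤ (ρ (y * z * y⁻¹)).maxGenEigenspace l := by
        intro w hw
        exact hle1 _ le_rfl w (by rw [htop]; exact Submodule.mem_top) hw
      have heq := Submodule.eq_of_le_of_finrank_le hle (gen_dim ρ y z l)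
      rw [heq]
      exact gen_conj ρ y z l hv
  intro z y l v hv
  obtain ⟨n, hn⟩ := (inferInstance : Group.IsNilpotent G).nilpotent'
  exact main n y (by rw [hn]; exact Subgroup.mem_top y) z l v hv

end Pool.Agent.H323.GR
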